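import Pool.Agent.W544.PG.Defs3
import Pool.Agent.W655.PG.Desc

/-!
# PG-AHL: forms killed by `so(T)` are absolute Hodge

`S_soi → S_ahl`.
-/

open Matrix Finset Module

namespace Pool.Agent.W557.PG

open Pool.Agent.W544.PG

section pull
variable {ι : Type} [Fintype ι] [DecidableEq ι] {k : ℕ} {R : Type} [CommRing R]

theorem pull_one (s : (Fin k → ι) → R) : pull (1 : Matrix ι ι R) s = s := by
  funext J
  unfold pull
  rw [Finset.sum_eq_single J]
  · simp
  · intro K _ hK
    obtain ⟨j, hj⟩ : ∃ j, K j ≠ J j := by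
      by_contra h
      push Not at h
      exact hK (funext h)
    rw [Finset.prod_eq_zero (Finset.mem_univ j) (by rw [Matrix.one_apply_ne hj]), zero_mul]
  · intro h
    exact absurd (Finset.mem_univ _) h

omit [DecidableEq ι] in
theorem pull_mul (A B : Matrix ι ι R) (s : (Fin k → ι) → R) :
    pull (A * B) s = pull B (pull A s) := by
  funext J
  unfold pull
  have h1 : ∀ L : Fin k → ι, ∏ j, (A * B) (L j) (J j) =
      ∑ K : Fin k → ι, (∏ j, B (K j) (J j)) * ∏ j, A (L j) (K j) := by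
    intro L
    have h2 : ∀ j, (A * B) (L j) (J j) = ∑ m, B m (J j) * A (L j) m := by
      intro j
      rw [Matrix.mul_apply]
      exact Finset.sum_congr rfl fun m _ => mul_comm _ _
    simp only [h2]
    rw [Finset.prod_univ_sum]
    simp only [Fintype.piFinset_univ, Finset.prod_mul_distrib]
  simp only [h1, Finset.sum_mul, Finset.mul_sum]
  rw [Finset.sum_comm]
  refine Finset.sum_congr rfl fun K _ => Finset.sum_congr rfl fun L _ => ?_
  ring

omit [DecidableEq ι] in
theorem pull_map {R' : Type} [CommRing R'] (τ : R →+* R') (A : Matrix ι ι R)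
    (s : (Fin k → ι) → R) : (fun J => τ (pull A s J)) = pull (A.map τ) (fun J => τ (s J)) := by
  funext J
  unfold pull
  rw [map_sum]
  refine Finset.sum_congr rfl fun K _ => ?_
  rw [map_mul, map_prod]
  rfl

/-- transport of derivations -/
theorem act_pull (P y z : Matrix ι ι ℂ) (h : P * y = z * P) (s : (Fin k → ι) → ℂ) :
    act y (pull P s) = pull P (act z s) := by
  funext J
  unfold act pull
  simp only [Finset.mul_sum]
  conv_rhs => rw [Finset.sum_comm]
  have key : ∀ j : Fin k, ∑ l, ∑ K : Fin k → ι,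
      y l (J j) * ((∏ i, P (K i) (Function.update J j l i)) * s K) =
      ∑ K : Fin k → ι, ∑ l, (∏ i, P (K i) (J i)) * (z l (K j) * s (Function.update K j l)) := by
    intro j
    have hp : ∀ (K L : Fin k → ι), ∏ i, P (K i) (L i) =
        P (K j) (L j) * ∏ i ∈ Finset.univ.erase j, P (K i) (L i) := fun K L =>
      (Finset.mul_prod_erase _ _ (Finset.mem_univ j)).symm
    have hL : ∀ (l : ι) (K : Fin k → ι),
        y l (J j) * ((∏ i, P (K i) (Function.update J j l i)) * s K) =
        (P (K j) l * y l (J j)) * ((∏ i ∈ Finset.univ.erase j, P (K i) (J i)) * s K) := by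
      intro l K
      rw [hp, Function.update_self]
      have : ∏ i ∈ Finset.univ.erase j, P (K i) (Function.update J j l i) =
          ∏ i ∈ Finset.univ.erase j, P (K i) (J i) :=
        Finset.prod_congr rfl fun i hi => by
          rw [Function.update_of_ne (Finset.ne_of_mem_erase hi)]
      rw [this]
      ring
    simp only [hL]
    rw [Finset.sum_comm]
    simp only [← Finset.sum_mul]
    have h1 : ∀ K : Fin k → ι, ∑ l, P (K j) l * y l (J j) = ∑ m, z (K j) m * P m (J j) := by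
      intro K
      have := congrFun (congrFun h (K j)) (J j)
      rwa [Matrix.mul_apply, Matrix.mul_apply] at this
    simp only [h1, Finset.sum_mul]
    -- reindex
    rw [← Finset.sum_product', ← Finset.sum_product']
    refine Finset.sum_bij' (fun x _ => (Function.update x.1 j x.2, x.1 j))
      (fun x _ => (Function.update x.1 j x.2, x.1 j)) (by simp) (by simp) ?_ ?_ ?_
    · rintro ⟨K, m⟩ _
      simp
    · rintro ⟨K, m⟩ _
      simp
    · rintro ⟨K, m⟩ _
      simp only [Function.update_self, Function.update_idem, Function.update_eq_self]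
      rw [hp (Function.update K j m)]
      have : ∏ i ∈ Finset.univ.erase j, P (Function.update K j m i) (J i) =
          ∏ i ∈ Finset.univ.erase j, P (K i) (J i) :=
        Finset.prod_congr rfl fun i hi => by
          rw [Function.update_of_ne (Finset.ne_of_mem_erase hi)]
      rw [this, Function.update_self]
      ring
  exact Finset.sum_congr rfl fun j _ => key j

end pull

/-- orthonormal coordinates -/
theorem orth {n : ℕ} (M : Matrix (Fin n) (Fin n) ℂ) (hM : Mᵀ = M) (hd : M.det ≠ 0) :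
    ∃ g : Matrix (Fin n) (Fin n) ℂ, gᵀ * M * g = 1 := by
  have : Invertible (2 : ℂ) := invertibleOfNonzero two_ne_zero
  have hs : LinearMap.IsSymm (Matrix.toBilin' M) := ⟨fun u v => by
    rw [RingHom.id_apply, Matrix.toBilin'_apply', Matrix.toBilin'_apply',
      Matrix.dotProduct_mulVec, dotProduct_comm, ← Matrix.mulVec_transpose, hM]⟩
  obtain ⟨q, hq⟩ := LinearMap.BilinForm.exists_orthogonal_basis (B := Matrix.toBilin' M) hs
  have hnd : (Matrix.toBilin' M).SeparatingLeft :=
    (LinearMap.BilinForm.nondegenerate_toBilin'_of_det_ne_zero' M hd).1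
  have hn := hq.not_isOrtho_basis_self_of_separatingLeft hnd
  have hr : finrank ℂ (Fin n → ℂ) = n := Module.finrank_fin_fun ℂ
  set b := q.reindex (finCongr hr) with hb
  have h1 : ∀ i j, i ≠ j → Matrix.toBilin' M (b i) (b j) = 0 := by
    intro i j hij
    rw [hb, Basis.reindex_apply, Basis.reindex_apply]
    exact LinearMap.isOrthoᵢ_def.mp hq _ _ fun h => hij ((finCongr hr).symm.injective h)
  have h2 : ∀ i, Matrix.toBilin' M (b i) (b i) ≠ 0 := by
    intro i
    rw [hb, Basis.reindex_apply]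
    exact hn _
  have h3 : ∀ i, ∃ z : ℂ, z ^ 2 = Matrix.toBilin' M (b i) (b i) := fun i =>
    IsAlgClosed.exists_pow_nat_eq _ two_pos
  choose z hz using h3
  have hz0 : ∀ i, z i ≠ 0 := by
    intro i h
    apply h2 i
    rw [← hz i, h]
    ring
  refine ⟨Matrix.of fun i j => (z j)⁻¹ * b j i, ?_⟩
  ext i j
  have h4 : ((Matrix.of fun i j => (z j)⁻¹ * b j i)ᵀ * M *
      (Matrix.of fun i j => (z j)⁻¹ * b j i)) i j =
      (z i)⁻¹ * (z j)⁻¹ * Matrix.toBilin' M (b i) (b j) := by
    rw [Matrix.toBilin'_apply, Matrix.mul_apply]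
    simp only [Matrix.mul_apply, Finset.sum_mul, Finset.mul_sum, Matrix.transpose_apply,
      Matrix.of_apply]
    rw [Finset.sum_comm]
    refine Finset.sum_congr rfl fun a _ => Finset.sum_congr rfl fun c _ => ?_
    ring
  rw [h4]
  by_cases hij : i = j
  · subst hij
    rw [← hz i, Matrix.one_apply_eq]
    field_simp [hz0 i]
  · rw [h1 i j hij, mul_zero, Matrix.one_apply_ne hij]

theorem ahl (hsoi : S_soi) : S_ahl := by
  intro n k Q Q' hQ hQ' hd hd' P hP hdet t ht
  obtain ⟨c, hc⟩ := hdet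
  -- determinants
  have hdC : ∀ M : Matrix (Fin n) (Fin n) ℚ, (mC M).det = ((M.det : ℚ) : ℂ) := by
    intro M
    exact (RingHom.map_det (Rat.castHom ℂ) M).symm
  have hB : (mC Q).det ≠ 0 := by rw [hdC]; exact_mod_cast hd
  have hA : (mC Q').det ≠ 0 := by rw [hdC]; exact_mod_cast hd'
  have hPd : P.det ≠ 0 := by
    intro h
    apply hB
    rw [← hP, Matrix.det_mul, h, mul_zero]
  have hPu : IsUnit P.det := isUnit_iff_ne_zero.2 hPd
  have hP1 : P⁻¹ * P = 1 := Matrix.nonsing_inv_mul _ hPu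
  have hP2 : P * P⁻¹ = 1 := Matrix.mul_nonsing_inv _ hPu
  set s : (Fin k → Fin n) → ℂ := pull P⁻¹ (cx t) with hs
  have hPs : pull P s = cx t := by rw [hs, ← pull_mul, hP1, pull_one]
  have hkill : ∀ Z : Matrix (Fin n) (Fin n) ℂ, Zᵀ * mC Q' + mC Q' * Z = 0 → act Z s = 0 := by
    intro Z hZ
    rw [hs, act_pull P⁻¹ Z (P⁻¹ * Z * P) (by rw [mul_assoc, hP2, mul_one])]
    have h1 : (P⁻¹ * Z * P)ᵀ * mC Q + mC Q * (P⁻¹ * Z * P) = 0 := by
      have h2 : P * (P⁻¹ * Z * P) = Z * P := by rw [← mul_assoc, ← mul_assoc, hP2, one_mul]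
      calc (P⁻¹ * Z * P)ᵀ * mC Q + mC Q * (P⁻¹ * Z * P)
          = (P * (P⁻¹ * Z * P))ᵀ * mC Q' * P + Pᵀ * mC Q' * (P * (P⁻¹ * Z * P)) := by
            rw [← hP, Matrix.transpose_mul P]
            simp only [mul_assoc]
        _ = Pᵀ * (Zᵀ * mC Q' + mC Q' * Z) * P := by
            rw [h2, Matrix.transpose_mul]
            simp only [mul_assoc, mul_add, add_mul]
        _ = 0 := by rw [hZ, mul_zero, zero_mul]
    have h3 : act (P⁻¹ * Z * P) (cx t) = 0 := by
      funext J
      exact ht _ h1 J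
    rw [h3]
    funext J
    simp [pull]
  -- invariance under `SO`
  obtain ⟨g, hg⟩ := orth (mC Q') (by
    have := congrArg mC hQ'
    rwa [show mC (Q'ᵀ) = (mC Q')ᵀ from rfl] at this) hA
  have hgd : g.det ≠ 0 := by
    intro h
    have := congrArg Matrix.det hg
    rw [Matrix.det_mul, h, mul_zero, Matrix.det_one] at this
    exact zero_ne_one this
  have hgu : IsUnit g.det := isUnit_iff_ne_zero.2 hgd
  have hg1 : g⁻¹ * g = 1 := Matrix.nonsing_inv_mul _ hgu
  have hg2 : g * g⁻¹ = 1 := Matrix.mul_nonsing_inv _ hgu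
  have hgA : gᵀ * mC Q' = g⁻¹ := by
    calc gᵀ * mC Q' = gᵀ * mC Q' * (g * g⁻¹) := by rw [hg2, mul_one]
      _ = gᵀ * mC Q' * g * g⁻¹ := by rw [← mul_assoc]
      _ = g⁻¹ := by rw [hg, one_mul]
  have hAg : mC Q' * g = (g⁻¹)ᵀ := by
    rw [← hgA, Matrix.transpose_mul, Matrix.transpose_transpose]
    congr 1
    have := congrArg mC hQ'
    exact (show mC (Q'ᵀ) = (mC Q')ᵀ from rfl) ▸ this.symm
  have hinv : ∀ R : Matrix (Fin n) (Fin n) ℂ, Rᵀ * mC Q' * R = mC Q' → R.det = 1 →
      pull R s = s := by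
    intro R hR hRd
    have h1 := hsoi n k (pull g s) ?_ (g⁻¹ * R * g) ?_ ?_
    · rw [← pull_mul, ← mul_assoc, ← mul_assoc, hg2, one_mul, pull_mul] at h1
      have e : ∀ x : (Fin k → Fin n) → ℂ, pull g⁻¹ (pull g x) = x := fun x => by
        rw [← pull_mul, hg2, pull_one]
      have h2 := congrArg (pull g⁻¹) h1
      rwa [e, e] at h2
    · intro Z hZ
      rw [act_pull g Z (g * Z * g⁻¹) (by rw [mul_assoc, hg1, mul_one])]
      rw [hkill (g * Z * g⁻¹) ?_]
      · funext J
        simp [pull]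
      · calc (g * Z * g⁻¹)ᵀ * mC Q' + mC Q' * (g * Z * g⁻¹)
            = (g⁻¹)ᵀ * Zᵀ * (gᵀ * mC Q') + (mC Q' * g) * Z * g⁻¹ := by
              rw [Matrix.transpose_mul, Matrix.transpose_mul]
              simp only [mul_assoc]
          _ = 0 := by
              rw [hgA, hAg, hZ]
              simp
    · calc (g⁻¹ * R * g)ᵀ * (g⁻¹ * R * g) = gᵀ * Rᵀ * ((g⁻¹)ᵀ * g⁻¹) * (R * g) := by
            rw [Matrix.transpose_mul, Matrix.transpose_mul]
            simp only [mul_assoc]
        _ = gᵀ * (Rᵀ * mC Q' * R) * g := by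
            rw [← hAg, mul_assoc (mC Q'), hg2, mul_one]
            simp only [mul_assoc]
        _ = 1 := by rw [hR, hg]
    · rw [Matrix.det_mul, Matrix.det_mul, hRd, mul_one, mul_comm, ← Matrix.det_mul, hg2,
        Matrix.det_one]
  -- descent
  have hfix : ∀ (τ : ℂ ≃+* ℂ) (J : Fin k → Fin n), τ (s J) = s J := by
    intro τ J
    set Pt : Matrix (Fin n) (Fin n) ℂ := P.map τ with hPt
    have hq : ∀ q : ℚ, τ (q : ℂ) = (q : ℂ) := fun q => map_ratCast τ q
    have hmC : ∀ M : Matrix (Fin n) (Fin n) ℚ, (mC M).map τ = mC M := by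
      intro M
      ext a b
      simp [mC]
    have hmul : ∀ M N : Matrix (Fin n) (Fin n) ℂ, (M * N).map τ = M.map τ * N.map τ := by
      intro M N
      exact Matrix.map_mul (f := (τ : ℂ →+* ℂ))
    have hPtQ : Ptᵀ * mC Q' * Pt = mC Q := by
      have h1 := congrArg (fun M : Matrix (Fin n) (Fin n) ℂ => M.map τ) hP
      simp only [hmul, hmC] at h1
      rwa [Matrix.transpose_map] at h1
    have hPtd : Pt.det = P.det := by
      have h1 : Pt.det = τ P.det := (RingHom.map_det (τ : ℂ →+* ℂ) P).symm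
      rw [h1, hc, hq]
    have hPtu : IsUnit Pt.det := by rw [hPtd]; exact hPu
    have hPt1 : Pt⁻¹ * Pt = 1 := Matrix.nonsing_inv_mul _ hPtu
    have hPt2 : Pt * Pt⁻¹ = 1 := Matrix.mul_nonsing_inv _ hPtu
    have hinvmap : (P⁻¹).map τ = Pt⁻¹ := by
      have h1 : (P⁻¹).map τ * Pt = 1 := by
        rw [hPt, ← hmul, hP1]
        ext a b
        by_cases h : a = b
        · subst h; simp
        · simp [Matrix.one_apply_ne h]
      calc (P⁻¹).map τ = (P⁻¹).map τ * (Pt * Pt⁻¹) := by rw [hPt2, mul_one]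
        _ = Pt⁻¹ := by rw [← mul_assoc, h1, one_mul]
    have h1 : (fun J => (τ : ℂ →+* ℂ) (s J)) = pull (P * Pt⁻¹) s := by
      have h2 : (fun J => (τ : ℂ →+* ℂ) (cx t J)) = cx t := by
        funext J
        exact hq (t J)
      have h3 : (P⁻¹).map (τ : ℂ →+* ℂ) = Pt⁻¹ := hinvmap
      rw [pull_mul, hPs, hs, pull_map (τ : ℂ →+* ℂ) P⁻¹ (cx t), h2, h3]
    have h4 : pull (P * Pt⁻¹) s = s := by
      apply hinv
      · calc (P * Pt⁻¹)ᵀ * mC Q' * (P * Pt⁻¹) = (Pt⁻¹)ᵀ * (Pᵀ * mC Q' * P) * Pt⁻¹ := by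
              rw [Matrix.transpose_mul]
              simp only [mul_assoc]
          _ = (Pt⁻¹)ᵀ * (Ptᵀ * mC Q' * Pt) * Pt⁻¹ := by rw [hP, hPtQ]
          _ = (Pt * Pt⁻¹)ᵀ * mC Q' * (Pt * Pt⁻¹) := by
              rw [Matrix.transpose_mul]
              simp only [mul_assoc]
          _ = mC Q' := by rw [hPt2]; simp
      · rw [Matrix.det_mul, ← hPtd, ← Matrix.det_mul, hPt2, Matrix.det_one]
    rw [h4] at h1
    exact congrFun h1 J
  have hrat : ∀ J, ∃ q : ℚ, (q : ℂ) = s J := fun J =>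
    Pool.Agent.W655.PG.rat_of_fixed fun τ => hfix τ J
  choose t' ht' using hrat
  have hcx : cx t' = s := by
    funext J
    exact ht' J
  refine ⟨t', fun Z hZ J => ?_, by rw [hcx, hPs]⟩
  have h1 := congrFun (hkill Z hZ) J
  rw [← hcx] at h1
  exact h1

end Pool.Agent.W557.PG
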